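import Mathlib
import Pool.Agent.Q110.GW.CritP

/-!
# A criterion for `G(k) ≤ 100 k`: a quarter of some progression at each scale

If for all large `N` a quarter of some arithmetic progression of length `M ≥ N` with difference
`d ≤ M ^ (1 / k)` in `[0, N ^ 1000000]` consists of sums of `3 k` `k`-th powers, then `G(k) ≤ 100 k`.
The bound `G(k) = O(k)` is equivalent to the corresponding statement with an unspecified constant.

Proof. Divide the differences of the members of the progression by their greatest common divisor and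
put them into the cyclic group whose order is the largest of them. As they generate the group, Kneser's
theorem shows that about `2 c` of them cover the group and about `4 c` of them a progression of length
at least `M / (2 c)` and difference `D`. The residues modulo `D` are covered by sums of `8 k` `k`-th
powers. This gives a complete interval, and each further `k`-th power raises its length to the power
`1 + 1 / (2 k)`.
-/

set_option autoImplicit false

namespace Pool.Agent.Results.MP_570bef_nt.QuarterProgressions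

/-- `n` is a sum of `s` `k`-th powers of natural numbers (zero allowed) -/
def IsSum (k s n : ℕ) : Prop := ∃ x : Fin s → ℕ, ∑ i, x i ^ k = n

open Classical in
/-- the number of the `i < M` for which `a + i d` is a sum of `s` `k`-th powers -/
noncomputable def count (k s a d M : ℕ) : ℕ :=
  ((Finset.range M).filter (fun i => IsSum k s (a + i * d))).card

/-- For all large `N` there is a progression `a + i d`, `i < M`, with `d ≥ 1`, `N ≤ M`, `d ^ k ≤ M` and
`a + M d ≤ N ^ C`, at least `M / c` members of which are sums of `s` `k`-th powers. -/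
def DenseProgs (k s c C : ℕ) : Prop :=
  ∃ N₀ : ℕ, ∀ N ≥ N₀, ∃ a d M : ℕ, 1 ≤ d ∧ N ≤ M ∧ d ^ k ≤ M ∧ a + M * d ≤ N ^ C ∧
    M ≤ c * count k s a d M

theorem result :
    (∀ k : ℕ, 2 ≤ k → DenseProgs k (3 * k) 4 (10 ^ 6) →
      ∃ N₁ : ℕ, ∀ n ≥ N₁, IsSum k (100 * k) n) ∧
    (∀ k s c C t : ℕ, 2 ≤ k → 1 ≤ c → 1 ≤ C → C + 2 ≤ 2 ^ t → DenseProgs k s c C →
      ∃ N₁ : ℕ, ∀ n ≥ N₁, IsSum k ((4 * c + 1) * s + (8 + 2 * t) * k) n) ∧
    ((∃ C : ℕ, ∀ k : ℕ, 2 ≤ k → ∃ N₁ : ℕ, ∀ n ≥ N₁, IsSum k (C * k) n) ↔
      ∃ C : ℕ, ∀ k : ℕ, 2 ≤ k → DenseProgs k (C * k) C C) := by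
  have hA : ∀ k s c C t : ℕ, 2 ≤ k → 1 ≤ c → 1 ≤ C → C + 2 ≤ 2 ^ t → DenseProgs k s c C →
      ∃ N₁ : ℕ, ∀ n ≥ N₁, IsSum k ((4 * c + 1) * s + (8 + 2 * t) * k) n :=
    fun k s c C t hk hc hC ht h => Pool.Agent.Q110.GW.criterionP k s c C t hk hc hC ht h
  refine ⟨?_, hA, ?_, ?_⟩
  · intro k hk h
    obtain ⟨N₁, h1⟩ := hA k (3 * k) 4 (10 ^ 6) 20 hk (by norm_num) (by norm_num) (by norm_num) h
    refine ⟨N₁, fun n hn => ?_⟩
    have h2 : Pool.Agent.Q110.GW.IsSum k ((4 * 4 + 1) * (3 * k) + (8 + 2 * 20) * k) n := h1 n hn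
    exact h2.mono (by omega) (by omega)
  · rintro ⟨C, h⟩
    refine ⟨C + 2, fun k hk => ?_⟩
    obtain ⟨N₁, h1⟩ := h k hk
    refine ⟨N₁ + 2, fun N hN => ⟨N, 1, N, le_rfl, le_rfl, ?_, ?_, ?_⟩⟩
    · rw [one_pow]; omega
    · calc N + N * 1 = 2 * N := by ring
        _ ≤ N * N := Nat.mul_le_mul_right _ (by omega)
        _ = N ^ 2 := by ring
        _ ≤ N ^ (C + 2) := Nat.pow_le_pow_right (by omega) (by omega)
    · have h2 : count k ((C + 2) * k) N 1 N = N := by
        classical
        unfold count
        have e : (Finset.range N).filter (fun i => IsSum k ((C + 2) * k) (N + i * 1)) =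
            Finset.range N := by
          apply Finset.filter_true_of_mem
          intro i _
          have h3 : Pool.Agent.Q110.GW.IsSum k (C * k) (N + i * 1) := h1 _ (by omega)
          exact h3.mono (by omega) (Nat.mul_le_mul_right _ (by omega))
        have e' : ((Finset.range N).filter (fun i => IsSum k ((C + 2) * k) (N + i * 1))).card = N := by
          rw [e]; simp
        convert e'
      rw [h2]
      nlinarith
  · rintro ⟨C, h⟩
    have hC : 1 ≤ C := by
      rcases Nat.eq_zero_or_pos C with rfl | hC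
      · obtain ⟨N₀, h0⟩ := h 2 le_rfl
        obtain ⟨a, d, M, h1, h2, h3, h4, h5⟩ := h0 (N₀ + 2) (by omega)
        omega
      · exact hC
    refine ⟨(4 * C + 1) * C + (8 + 2 * (C + 1)), fun k hk => ?_⟩
    obtain ⟨N₁, h1⟩ := hA k (C * k) C C (C + 1) hk hC hC (by
      have := Nat.lt_two_pow_self (n := C)
      rw [pow_succ]
      omega) (h k hk)
    refine ⟨N₁, fun n hn => ?_⟩
    have h2 := h1 n hn
    have e : (4 * C + 1) * (C * k) + (8 + 2 * (C + 1)) * k =
        ((4 * C + 1) * C + (8 + 2 * (C + 1))) * k := by ring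
    rwa [e] at h2

end Pool.Agent.Results.MP_570bef_nt.QuarterProgressions
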