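import Pool.Agent.Q189.PV.Sq

/-!
# The bound `100 k` in Waring's problem need only be checked on squares or on fourth powers

If, for some `q ≥ 1`, all large squares of multiples of `q` are sums of `s` `k`-th powers, then
`s ≥ k / 2` and `G(k) ≤ 3 s + 8 k ≤ 19 s`; so `G(k) ≤ 100 k` holds if all large squares (of multiples of
some `q = q(k)`) are sums of `30 k` `k`-th powers. For fourth powers: `G(k) ≤ 36 s + 8 k ≤ 68 s`. The
general principle is for sets `B` with `b B ⊆ B` for some `b ≥ 2` such that all members of one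
residue class are sums of `h` elements of `B ∪ {0}`: `G(k) ≤ h s + 8 k`.

Proof. Every residue class modulo `b ^ j M` contains a bounded sum `r` of `8 k` `k`-th powers
(`Pool/Agent/Q110/GW/Local.lean`); choose it such that `n - r = b ^ j n'`, where `n'` is in the given residue
class. Then `n'` is a sum of `h` elements of `B ∪ {0}`, and after multiplication by `b ^ j` these are zero
or large elements of `B`. Sums of three squares represent all `n' = 1 mod 4` (Legendre, Gauss), and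
`6 t ^ 2` is a sum of twelve fourth powers (Liouville).
-/

set_option autoImplicit false

namespace Pool.Agent.Results.MP_570bef_nt.SquaresAndFourthPowers

/-- `n` is a sum of `s` `k`-th powers of natural numbers (zero allowed) -/
def IsSum (k s n : ℕ) : Prop := ∃ x : Fin s → ℕ, ∑ i, x i ^ k = n

/-- `n` is a sum of `h` terms each of which is zero or an element of `B` -/
def SumOf (B : Set ℕ) (h n : ℕ) : Prop :=
  ∃ x : Fin h → ℕ, (∀ i, x i = 0 ∨ x i ∈ B) ∧ ∑ i, x i = n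

/-- **The bound `100 k` on squares or on fourth powers.** -/
theorem result :
    -- the transfer principle
    (∀ (k s h b M a N₀ : ℕ) (B : Set ℕ), 1 ≤ k → 2 ≤ b → 1 ≤ M → (∀ x ∈ B, b * x ∈ B) →
      (∀ z, SumOf B h (a + M * z)) → (∀ x ∈ B, N₀ ≤ x → IsSum k s x) →
        ∃ N₁ : ℕ, ∀ n ≥ N₁, IsSum k (h * s + 8 * k) n) ∧
    -- squares
    (∀ k s q : ℕ, 2 ≤ k → 1 ≤ q → (∃ m₀ : ℕ, ∀ m ≥ m₀, IsSum k s ((q * m) ^ 2)) →
      k ≤ 2 * s ∧ (∃ N₁ : ℕ, ∀ n ≥ N₁, IsSum k (3 * s + 8 * k) n) ∧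
        (s ≤ 30 * k → ∃ N₁ : ℕ, ∀ n ≥ N₁, IsSum k (100 * k) n)) ∧
    -- fourth powers
    (∀ k s q : ℕ, 2 ≤ k → 1 ≤ q → (∃ m₀ : ℕ, ∀ m ≥ m₀, IsSum k s ((q * m) ^ 4)) →
      k ≤ 4 * s ∧ (∃ N₁ : ℕ, ∀ n ≥ N₁, IsSum k (36 * s + 8 * k) n) ∧
        (2 * s ≤ 5 * k → ∃ N₁ : ℕ, ∀ n ≥ N₁, IsSum k (100 * k) n)) := by
  have hmono : ∀ k s t n : ℕ, k ≠ 0 → IsSum k s n → s ≤ t → IsSum k t n :=
    fun k s t n hk h hst => Pool.Agent.Q110.GW.IsSum.mono hk h hst
  refine ⟨fun k s h b M a N₀ B hk hb hM hB hsum hall =>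
    Pool.Agent.Q189.PV.transfer k s h b M a N₀ (by omega) hb hM B hB hsum hall, ?_, ?_⟩
  · intro k s q hk hq h
    obtain ⟨m₀, h⟩ := h
    have h1 : ∃ N₁ : ℕ, ∀ n ≥ N₁, IsSum k (3 * s + 8 * k) n :=
      Pool.Agent.Q189.PV.transfer_squares k s q m₀ hk hq h
    refine ⟨Pool.Agent.Q189.PV.ge_power k s q 2 m₀ hk hq (by norm_num) h, h1, fun hs => ?_⟩
    obtain ⟨N₁, h2⟩ := h1
    exact ⟨N₁, fun n hn => hmono _ _ _ _ (by omega) (h2 n hn) (by omega)⟩
  · intro k s q hk hq h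
    obtain ⟨m₀, h⟩ := h
    have h1 : ∃ N₁ : ℕ, ∀ n ≥ N₁, IsSum k (36 * s + 8 * k) n :=
      Pool.Agent.Q189.PV.transfer_fourth k s q m₀ hk hq h
    refine ⟨Pool.Agent.Q189.PV.ge_power k s q 4 m₀ hk hq (by norm_num) h, h1, fun hs => ?_⟩
    obtain ⟨N₁, h2⟩ := h1
    exact ⟨N₁, fun n hn => hmono _ _ _ _ (by omega) (h2 n hn) (by omega)⟩

end Pool.Agent.Results.MP_570bef_nt.SquaresAndFourthPowers
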