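import Pool.Agent.Q189.WP.Thin

/-!
# The linear bound in Waring's problem need only be checked on thin sets of test numbers

For `h ≥ 1` call `n` a test number if it is a sum of distinct powers `2 ^ i` whose exponents `i` lie in
one residue class modulo `h`; up to `x` there are only `O(x ^ (1 / h))` test numbers. We prove: if, for
`k ≥ 2`, every window `[N, N ^ C]` contains the end `2 ^ t` of a block `[2 ^ (t - h), 2 ^ t)` all of whose
test numbers are sums of `s` `k`-th powers, then `G(k) ≤ h s + 2 k j`, where `2 ^ j ≥ C + 2`. So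
`G(k) ≤ 100 k` if `h s ≤ 90 k` and `C = 30`, and `G(k) = O(k)` is equivalent to the linear bound for
the test numbers, for every `h`.

Proof. Let `n` be an integer whose `h` leading binary digits (at the places `t - h, ..., t - 1`) are equal
to one. Its digits with places in one residue class modulo `h` form a test number in
`[2 ^ (t - h), 2 ^ t)`; so `n` is a sum of `h` such test numbers. These `n` form the interval
`[2 ^ t - 2 ^ (t - h), 2 ^ t)`, which consists of sums of `h s` `k`-th powers; the greedy step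
(`Pool/Agent/Q110/GW/Grow.lean`) squares the length of a complete interval with `2 k` further powers.
-/

set_option autoImplicit false

namespace Pool.Agent.Results.MP_570bef_nt.ThinTestNumbers

/-- `n` is a sum of `s` `k`-th powers of natural numbers (zero allowed) -/
def IsSum (k s n : ℕ) : Prop := ∃ x : Fin s → ℕ, ∑ i, x i ^ k = n

/-- test numbers: sums of distinct powers `2 ^ i` with exponents in one residue class modulo `h` -/
def Test (h n : ℕ) : Prop := ∃ (c : ℕ) (S : Finset ℕ), (∀ i ∈ S, i % h = c) ∧ ∑ i ∈ S, 2 ^ i = n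

/-- For all large `N` there is `t` with `N ≤ 2 ^ t ≤ N ^ C` such that all test numbers in
`[2 ^ (t - h), 2 ^ t)` are sums of `s` `k`-th powers. -/
def TestBlocks (k s h C : ℕ) : Prop :=
  ∃ N₀ : ℕ, ∀ N ≥ N₀, ∃ t : ℕ, N ≤ 2 ^ t ∧ 2 ^ t ≤ N ^ C ∧
    ∀ n, Test h n → 2 ^ (t - h) ≤ n → n < 2 ^ t → IsSum k s n

/-- **The linear bound in Waring's problem on thin sets of test numbers.** -/
theorem result :
    -- the test numbers are thin
    (∀ h t : ℕ, 1 ≤ h → {n : ℕ | Test h n ∧ n < 2 ^ (h * t)}.ncard ≤ h * 2 ^ t) ∧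
    -- the criterion for a single exponent `k`
    (∀ k s h C j : ℕ, 2 ≤ k → 1 ≤ h → C + 2 ≤ 2 ^ j → TestBlocks k s h C →
      ∃ N₁ : ℕ, ∀ n ≥ N₁, IsSum k (h * s + 2 * k * j) n) ∧
    -- the bound `100 k`
    (∀ k s h : ℕ, 2 ≤ k → 1 ≤ h → h * s ≤ 90 * k → TestBlocks k s h 30 →
      ∃ N₁ : ℕ, ∀ n ≥ N₁, IsSum k (100 * k) n) ∧
    -- the equivalence, for every `h`
    (∀ h : ℕ, 1 ≤ h →
      ((∃ C : ℕ, ∀ k : ℕ, 2 ≤ k → ∃ N₁ : ℕ, ∀ n ≥ N₁, IsSum k (C * k) n) ↔
        ∃ C : ℕ, ∀ k : ℕ, 2 ≤ k → TestBlocks k (C * k) h C)) := by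
  have hmain : ∀ k s h C j : ℕ, 2 ≤ k → 1 ≤ h → C + 2 ≤ 2 ^ j → TestBlocks k s h C →
      ∃ N₁ : ℕ, ∀ n ≥ N₁, IsSum k (h * s + 2 * k * j) n :=
    fun k s h C j hk hh hj H => Pool.Agent.Q189.WP.thin_main k s h C j hk hh hj H
  have hmono : ∀ k s t n : ℕ, k ≠ 0 → IsSum k s n → s ≤ t → IsSum k t n :=
    fun k s t n hk h hst => Pool.Agent.Q110.GW.IsSum.mono hk h hst
  refine ⟨fun h t hh => Pool.Agent.Q189.WP.test_thin h t hh, hmain, ?_, ?_⟩
  · intro k s h hk hh hs H
    obtain ⟨N₁, h1⟩ := hmain k s h 30 5 hk hh (by norm_num) H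
    exact ⟨N₁, fun n hn => hmono _ _ _ _ (by omega) (h1 n hn) (by omega)⟩
  · intro h hh
    constructor
    · rintro ⟨C, H⟩
      refine ⟨C + 2, fun k hk => ?_⟩
      obtain ⟨N₁, h1⟩ := H k hk
      exact Pool.Agent.Q189.WP.blocks_of_all (by omega) (fun n hn =>
        hmono _ _ _ _ (by omega) (h1 n hn) (Nat.mul_le_mul_right _ (by omega)))
    · rintro ⟨C, H⟩
      refine ⟨h * C + 2 * (C + 2), fun k hk => ?_⟩
      obtain ⟨N₁, h1⟩ := hmain k (C * k) h C (C + 2) hk hh Nat.lt_two_pow_self.le (H k hk)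
      refine ⟨N₁, fun n hn => ?_⟩
      have e : h * (C * k) + 2 * k * (C + 2) = (h * C + 2 * (C + 2)) * k := by ring
      rw [← e]
      exact h1 n hn

end Pool.Agent.Results.MP_570bef_nt.ThinTestNumbers
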